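import Pool.Agent.H74.OLP.Targets2

/-!
# SYM: reciprocity
-/

set_option autoImplicit false
open scoped Classical
open Finset

namespace Pool.Agent.H17.OLP

open Pool.Agent.H74.OLP

theorem sym_face {V E F : Type} {M : CMap V E F} (hM : M.OK) {a : E} {y z : F}
    (h : ∀ f, M.OnF a f ↔ (f = y ∨ f = z)) (G : F → R) : G (M.l a) + G (M.r a) = G y + G z := by
  have h1 : M.l a = y ∨ M.l a = z := (h (M.l a)).1 (Or.inl rfl)
  have h2 : M.r a = y ∨ M.r a = z := (h (M.r a)).1 (Or.inr rfl)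
  have h3 := hM.lr a
  have h4 : M.l a = y ∨ M.r a = y := (h y).2 (Or.inl rfl)
  rcases h1 with h1 | h1 <;> rcases h2 with h2 | h2
  · exact absurd (h1.trans h2.symm) h3
  · rw [h1, h2]
  · rw [h1, h2, add_comm]
  · exact absurd (h1.trans h2.symm) h3

theorem sym_alg {a b c d x D a' b' c' d' x' D' : R} (h1 : a + c = x) (h2 : b + d = x)
    (h3 : a + b = D) (h1' : a' + c' = x') (h2' : b' + d' = x') (h3' : a' + b' = D') :
    D * x' + D' * x = (a * a' + b * b') + (c * c' + d * d') := by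
  have h0 : (2 : R) = 0 := by decide
  have e1 : d = a + c - b := by rw [h1, ← h2]; ring
  have e2 : d' = a' + c' - b' := by rw [h1', ← h2']; ring
  rw [← h3, ← h3', ← h1, ← h1', e1, e2]
  linear_combination (a * b' + a' * b + b * c' + b' * c - b * b' - c * c') * h0

theorem pf_SYM (h1 : T_ZGV) : T_SYM := by
  intro V E F _ _ _ M hM θ x D θ' x' D' hC hC'
  have h0 : (2 : R) = 0 := by decide
  rw [Req]
  unfold CMap.dot
  rw [← Finset.sum_add_distrib]
  obtain ⟨H, hH⟩ : ∃ H : V → F → R, H = fun v f => θ v f * θ' v f := ⟨_, rfl⟩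
  have e1 : ∀ e, D e * x' e + D' e * x e =
      (H (M.s e) (M.l e) + H (M.s e) (M.r e)) + (H (M.t e) (M.l e) + H (M.t e) (M.r e)) := by
    intro e
    obtain ⟨k1, k2, k3, k4⟩ := hC e
    obtain ⟨l1, l2, l3, l4⟩ := hC' e
    rw [hH]
    exact sym_alg k1 k2 k3 l1 l2 l3
  rw [Finset.sum_congr rfl fun e _ => e1 e]
  have e2 : ∀ e, (H (M.s e) (M.l e) + H (M.s e) (M.r e)) +
      (H (M.t e) (M.l e) + H (M.t e) (M.r e)) =
      ∑ v, ((if M.s e = v then H v (M.l e) + H v (M.r e) else 0) +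
        (if M.t e = v then H v (M.l e) + H v (M.r e) else 0)) := by
    intro e
    rw [Finset.sum_add_distrib, Finset.sum_ite_eq, Finset.sum_ite_eq, if_pos (Finset.mem_univ _),
      if_pos (Finset.mem_univ _)]
  rw [Finset.sum_congr rfl fun e _ => e2 e, Finset.sum_comm]
  refine Finset.sum_eq_zero fun v _ => ?_
  obtain ⟨a, b, c, p, q, r, hab, hbc, hac, -, -, -, hv, ha, hb, hc⟩ := hM.tri v
  have e3 := h1 V E F M hM (fun e => H v (M.l e) + H v (M.r e)) v a b c hab hbc hac hv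
  rw [e3]
  change (H v (M.l a) + H v (M.r a)) + (H v (M.l b) + H v (M.r b)) +
    (H v (M.l c) + H v (M.r c)) = 0
  rw [sym_face hM ha (H v), sym_face hM hb (H v), sym_face hM hc (H v)]
  linear_combination (H v p + H v q + H v r) * h0

end Pool.Agent.H17.OLP
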