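import Pool.Agent.H74.OLP.Targets

/-!
# TT: pushing the path over two points
-/

set_option autoImplicit false
open scoped Classical
open Finset

namespace Pool.Agent.H17.OLP

open Pool.Agent.H74.OLP

theorem tt_tri {F : Type} {T : SimpleGraph F} {D : F → F → R} (hD : Tri T D) {x y w : F}
    (h1 : T.Adj x y) (h2 : T.Adj w x) (h3 : T.Adj w y) : D w x + D w y = D x y := by
  have h := hD.2 x y w h1 h3.symm h2
  rw [hD.1 y w] at h
  rw [Req]
  linear_combination h

theorem tt_left {F : Type} {T : SimpleGraph F} {L : ℕ} {z : ℕ → F} {p : ℕ → ℕ} {c : ℕ → ℕ → F}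
    (hP : Pth T L z) (hS : Side T L z p c) {i a : ℕ} (hi : 3 ≤ i) (hiL : i < L)
    (ha : (p (i - 1) = 1 ∧ a + 2 = i) ∨ (p (i - 1) ≠ 1 ∧ a + 1 = i)) {D : F → F → R}
    (hD : Tri T D) : D (z a) (c i 1) + D (z i) (c i 1) = fs D z a i := by
  have hpi := hS.pos i (by omega) hiL
  have e1 : T.Adj (z i) (c i 1) := hS.adj i 1 (by omega) hiL le_rfl hpi
  have e2 : T.Adj (z (i - 1)) (c i 1) := (hS.cx i 1 (by omega) hiL le_rfl hpi).2 rfl
  have e3 : T.Adj (z (i - 1)) (z i) := (hP.adj (i - 1) i (by omega) (by omega)).2 (by omega)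
  have t1 : D (z (i - 1)) (c i 1) + D (z i) (c i 1) = D (z (i - 1)) (z i) := by
    rw [hD.1 (z (i - 1)) (c i 1), hD.1 (z i) (c i 1)]
    exact tt_tri hD e3 e2.symm e1.symm
  rcases ha with ⟨h1, h2⟩ | ⟨h1, h2⟩
  · obtain ⟨i', rfl⟩ : ∃ i', i = i' + 1 := ⟨i - 1, by omega⟩
    rw [Nat.add_sub_cancel] at h1 e2 e3 t1
    have hlk : c i' (p i') = c (i' + 1) 1 := hS.lk i' (by omega) hiL
    rw [h1] at hlk
    have hpi' := hS.pos i' (by omega) (by omega)
    have e4 : T.Adj (z (i' - 1)) (c i' 1) := (hS.cx i' 1 (by omega) (by omega) le_rfl hpi').2 rfl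
    rw [hlk] at e4
    have ha' : a = i' - 1 := by omega
    have e5 : T.Adj (z (i' - 1)) (z i') := (hP.adj (i' - 1) i' (by omega) (by omega)).2 (by omega)
    have t2 : D (z (i' - 1)) (c (i' + 1) 1) + D (z i') (c (i' + 1) 1) = D (z (i' - 1)) (z i') := by
      rw [hD.1 (z (i' - 1)) (c (i' + 1) 1), hD.1 (z i') (c (i' + 1) 1)]
      exact tt_tri hD e5 e4.symm e2.symm
    have hfs : fs D z a (i' + 1) = D (z (i' - 1)) (z i') + D (z i') (z (i' + 1)) := by
      rw [fs_succ D z (by omega : a ≤ i')]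
      congr 1
      have : i' = a + 1 := by omega
      rw [this, fs_one]
      rw [Nat.add_sub_cancel]
    rw [hfs, ← t1, ← t2, ha']
    have := R2 (D (z i') (c (i' + 1) 1))
    linear_combination -this
  · have ha' : a = i - 1 := by omega
    have : i = a + 1 := by omega
    rw [ha', t1]
    conv_rhs => rw [show i = (i - 1) + 1 by omega]
    rw [Nat.add_sub_cancel, fs_one]
    rw [show i - 1 + 1 = i by omega]

theorem tt_right {F : Type} {T : SimpleGraph F} {L : ℕ} {z : ℕ → F} {p : ℕ → ℕ} {c : ℕ → ℕ → F}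
    (hP : Pth T L z) (hS : Side T L z p c) {i b : ℕ} (hi : 1 ≤ i) (hiL : i + 2 < L)
    (hb : (p (i + 1) = 1 ∧ b = i + 2) ∨ (p (i + 1) ≠ 1 ∧ b = i + 1)) {D : F → F → R}
    (hD : Tri T D) : D (z i) (c i (p i)) + D (c i (p i)) (z b) = fs D z i b := by
  have hpi := hS.pos i hi (by omega)
  have e1 : T.Adj (z i) (c i (p i)) := hS.adj i (p i) hi (by omega) hpi le_rfl
  have e2 : T.Adj (z (i + 1)) (c i (p i)) := (hS.cy i (p i) hi (by omega) hpi le_rfl).2 rfl
  have e3 : T.Adj (z i) (z (i + 1)) := (hP.adj i (i + 1) (by omega) (by omega)).2 (by omega)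
  have t1 : D (c i (p i)) (z i) + D (c i (p i)) (z (i + 1)) = D (z i) (z (i + 1)) :=
    tt_tri hD e3 e1.symm e2.symm
  rcases hb with ⟨h1, h2⟩ | ⟨h1, h2⟩
  · have hlk : c i (p i) = c (i + 1) 1 := hS.lk i (by omega) (by omega)
    have hpi' := hS.pos (i + 1) (by omega) (by omega)
    have e4 : T.Adj (z (i + 1 + 1)) (c (i + 1) 1) :=
      (hS.cy (i + 1) 1 (by omega) (by omega) le_rfl hpi').2 h1.symm
    rw [← hlk] at e4
    have e5 : T.Adj (z (i + 1)) (z (i + 1 + 1)) :=
      (hP.adj (i + 1) (i + 1 + 1) (by omega) (by omega)).2 (by omega)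
    have t2 : D (c i (p i)) (z (i + 1)) + D (c i (p i)) (z (i + 1 + 1)) =
        D (z (i + 1)) (z (i + 1 + 1)) := tt_tri hD e5 e2.symm e4.symm
    have hfs : fs D z i b = D (z i) (z (i + 1)) + D (z (i + 1)) (z (i + 1 + 1)) := by
      rw [h2, show i + 2 = i + 1 + 1 by omega, fs_succ D z (by omega : i ≤ i + 1), fs_one]
    rw [hfs, ← t1, ← t2, h2, hD.1 (z i) (c i (p i))]
    have := R2 (D (c i (p i)) (z (i + 1)))
    linear_combination -this
  · rw [h2, fs_one, ← t1, hD.1 (z i) (c i (p i))]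

theorem pf_TT (h1 : T_SPL) (h2 : T_SDF) : T_TT := by
  intro F T L z p c hP hS i hi hiL hp hp'
  obtain ⟨s1, s2, s3, -, s5⟩ := h2 F T L z p c hP hS
  have hlk : c i (p i) = c (i + 1) 1 := hS.lk i (by omega) (by omega)
  obtain ⟨u, hu⟩ : ∃ u : ℕ → F, u = fun j => if j ≤ p i then c i j else
    c (i + 1) (j - p i + 1) := ⟨_, rfl⟩
  have hu1 : ∀ j, j ≤ p i → u j = c i j := by
    intro j hj
    rw [hu]
    exact if_pos hj
  have hu2 : ∀ j, p i ≤ j → u j = c (i + 1) (j - p i + 1) := by
    intro j hj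
    by_cases hj' : j ≤ p i
    · have e : j = p i := le_antisymm hj' hj
      rw [hu1 j hj', e, hlk, Nat.sub_self]
    · rw [hu]
      exact if_neg hj'
  obtain ⟨a, ha⟩ : ∃ a, a = if p (i - 1) = 1 then i - 2 else i - 1 := ⟨_, rfl⟩
  obtain ⟨b, hb⟩ : ∃ b, b = if p (i + 2) = 1 then i + 3 else i + 2 := ⟨_, rfl⟩
  have ha' : (p (i - 1) = 1 ∧ a + 2 = i) ∨ (p (i - 1) ≠ 1 ∧ a + 1 = i) := by
    by_cases h : p (i - 1) = 1
    · rw [if_pos h] at ha
      exact Or.inl ⟨h, by omega⟩
    · rw [if_neg h] at ha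
      exact Or.inr ⟨h, by omega⟩
  have hb' : (p (i + 2) = 1 ∧ b = i + 3) ∨ (p (i + 2) ≠ 1 ∧ b = i + 2) := by
    by_cases h : p (i + 2) = 1
    · rw [if_pos h] at hb
      exact Or.inl ⟨h, by omega⟩
    · rw [if_neg h] at hb
      exact Or.inr ⟨h, by omega⟩
  obtain ⟨s, hs⟩ : ∃ s, s + 1 = p i + p (i + 1) := ⟨p i + p (i + 1) - 1, by omega⟩
  -- the two blocks
  have hzz : T.Adj (z i) (z (i + 1)) := (hP.adj i (i + 1) (by omega) (by omega)).2 (by omega)
  have hne : ∀ j l, 1 ≤ j → j < p i → 2 ≤ l → l ≤ p (i + 1) →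
      c i j ≠ c (i + 1) l ∧ ¬ T.Adj (c i j) (c (i + 1) l) := by
    intro j l hj hjp hl hlp
    have hB : T.Adj (z (i + 1)) (c (i + 1) l) := hS.adj (i + 1) l (by omega) (by omega) (by omega) hlp
    have hA : T.Adj (z i) (c i j) := hS.adj i j (by omega) (by omega) hj hjp.le
    have hnA : ¬ T.Adj (z (i + 1)) (c i j) := by
      intro h
      have := (hS.cy i j (by omega) (by omega) hj hjp.le).1 h
      omega
    constructor
    · intro h
      rw [← h] at hB
      exact hnA hB
    · intro h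
      have hn1 : c i j ≠ z (i + 1) := hS.ny i j (by omega) (by omega) hj hjp.le
      have hn2 : c (i + 1) l ≠ z i := by
        have := hS.nx (i + 1) l (by omega) (by omega) (by omega) hlp
        rwa [Nat.add_sub_cancel] at this
      rcases hP.q4 (c i j) (z i) (z (i + 1)) (c (i + 1) l) hA.symm hzz hB h.symm hn1 hn2.symm
        with h3 | h3
      · exact hnA h3.symm
      · have h4 := hS.cx (i + 1) l (by omega) (by omega) (by omega) hlp
        rw [Nat.add_sub_cancel] at h4
        have := h4.1 h3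
        omega
  have hinj : ∀ j k, 1 ≤ j → j ≤ s → 1 ≤ k → k ≤ s → u j = u k → j = k := by
    intro j k hj hjs hk hks huu
    rcases le_total j (p i) with hjp | hjp
    · rcases le_total k (p i) with hkp | hkp
      · rw [hu1 j hjp, hu1 k hkp] at huu
        exact hS.ci i j k (by omega) (by omega) hj hjp hk hkp huu
      · by_cases hjk : j = p i
        · rw [hu2 j hjk.ge, hu2 k hkp] at huu
          have := hS.ci (i + 1) _ _ (by omega) (by omega) (by omega) (by omega) (by omega)
            (by omega) huu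
          omega
        · by_cases hkk : k = p i
          · rw [hu1 j hjp, hu1 k hkk.le] at huu
            exact hS.ci i j k (by omega) (by omega) hj hjp hk hkk.le huu
          · rw [hu1 j hjp, hu2 k hkp] at huu
            exact absurd huu (hne j _ hj (by omega) (by omega) (by omega)).1
    · rcases le_total k (p i) with hkp | hkp
      · by_cases hjk : j = p i
        · rw [hu1 j hjk.le, hu1 k hkp] at huu
          exact hS.ci i j k (by omega) (by omega) hj hjk.le hk hkp huu
        · by_cases hkk : k = p i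
          · rw [hu2 j hjp, hu2 k hkk.ge] at huu
            have := hS.ci (i + 1) _ _ (by omega) (by omega) (by omega) (by omega) (by omega)
              (by omega) huu
            omega
          · rw [hu2 j hjp, hu1 k hkp] at huu
            exact absurd huu.symm (hne k _ hk (by omega) (by omega) (by omega)).1
      · rw [hu2 j hjp, hu2 k hkp] at huu
        have := hS.ci (i + 1) _ _ (by omega) (by omega) (by omega) (by omega) (by omega)
          (by omega) huu
        omega
  have hadj : ∀ j k, 1 ≤ j → j ≤ s → 1 ≤ k → k ≤ s →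
      (T.Adj (u j) (u k) ↔ (k = j + 1 ∨ j = k + 1)) := by
    intro j k hj hjs hk hks
    by_cases hA : j ≤ p i ∧ k ≤ p i
    · rw [hu1 j hA.1, hu1 k hA.2]
      exact hS.cc i j k (by omega) (by omega) hj hA.1 hk hA.2
    · by_cases hB : p i ≤ j ∧ p i ≤ k
      · rw [hu2 j hB.1, hu2 k hB.2, hS.cc (i + 1) _ _ (by omega) (by omega) (by omega) (by omega)
          (by omega) (by omega)]
        omega
      · rcases lt_or_ge j (p i) with hjp | hjp
        · rw [hu1 j hjp.le, hu2 k (by omega)]
          constructor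
          · intro h
            exact absurd h (hne j _ hj hjp (by omega) (by omega)).2
          · intro h
            omega
        · rw [hu2 j hjp, hu1 k (by omega)]
          constructor
          · intro h
            exact absurd h.symm (hne k _ hk (by omega) (by omega) (by omega)).2
          · intro h
            omega
  have hleft : ∀ j k, 1 ≤ j → j ≤ s → k ≤ a → (T.Adj (z k) (u j) ↔ (k = a ∧ j = 1)) ∧
      u j ≠ z k := by
    intro j k hj hjs hk
    rcases le_or_gt j (p i) with hjp | hjp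
    · rw [hu1 j hjp]
      refine ⟨?_, s3 i j k (by omega) (by omega) hj hjp (by omega)⟩
      rw [s1 i j k (by omega) (by omega) hj hjp (by omega)]
      rcases ha' with ⟨h3, h4⟩ | ⟨h3, h4⟩
      · constructor
        · rintro ⟨h5, h6 | h6⟩
          · omega
          · exact ⟨by omega, h5⟩
        · rintro ⟨h5, h6⟩
          exact ⟨h6, Or.inr ⟨by omega, h3⟩⟩
      · constructor
        · rintro ⟨h5, h6 | h6⟩
          · exact ⟨by omega, h5⟩
          · exact absurd h6.2 h3
        · rintro ⟨h5, h6⟩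
          exact ⟨h6, Or.inl (by omega)⟩
    · rw [hu2 j hjp.le]
      refine ⟨?_, s3 (i + 1) _ k (by omega) (by omega) (by omega) (by omega) (by omega)⟩
      rw [s1 (i + 1) _ k (by omega) (by omega) (by omega) (by omega) (by omega)]
      constructor
      · rintro ⟨h5, -⟩
        omega
      · rintro ⟨-, h6⟩
        omega
  have hright : ∀ j k, 1 ≤ j → j ≤ s → b ≤ k → k ≤ L →
      (T.Adj (z k) (u j) ↔ (k = b ∧ j = s)) ∧ u j ≠ z k := by
    intro j k hj hjs hk hkL
    rcases lt_or_ge j (p i) with hjp | hjp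
    · rw [hu1 j hjp.le]
      refine ⟨?_, s3 i j k (by omega) (by omega) hj hjp.le hkL⟩
      rw [s2 i j k (by omega) (by omega) hj hjp.le (by omega) hkL]
      constructor
      · rintro ⟨h5, -⟩
        omega
      · rintro ⟨-, h6⟩
        omega
    · rw [hu2 j hjp]
      refine ⟨?_, s3 (i + 1) _ k (by omega) (by omega) (by omega) (by omega) hkL⟩
      rw [s2 (i + 1) _ k (by omega) (by omega) (by omega) (by omega) (by omega) hkL]
      have e12 : i + 1 + 1 = i + 2 := rfl
      rw [e12]
      rcases hb' with ⟨h3, h4⟩ | ⟨h3, h4⟩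
      · constructor
        · rintro ⟨h5, h6 | h6⟩
          · omega
          · exact ⟨by omega, by omega⟩
        · rintro ⟨h5, h6⟩
          exact ⟨by omega, Or.inr ⟨by omega, h3⟩⟩
      · constructor
        · rintro ⟨h5, h6 | h6⟩
          · exact ⟨by omega, by omega⟩
          · exact absurd h6.2 h3
        · rintro ⟨h5, h6⟩
          exact ⟨by omega, Or.inl (by omega)⟩
  have hsum : ∀ D, Tri T D → D (z a) (u 1) + fs D u 1 s + D (u s) (z b) = fs D z a b := by
    intro D hD
    have f1 : fs D u 1 s = fs D u 1 (p i) + fs D u (p i) s :=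
      fs_split D u (by omega) (by omega)
    have f2 : fs D u 1 (p i) = fs D (c i) 1 (p i) :=
      fs_congr D fun j _ hj => hu1 j hj
    have f3 : fs D u (p i) s = fs D (c (i + 1)) 1 (p (i + 1)) := by
      have g1 : fs D u (p i) s = fs D (fun j => u (j + (p i - 1))) 1 (p (i + 1)) := by
        rw [fs_shift D u 1 (p (i + 1)) (p i - 1)]
        have k1 : 1 + (p i - 1) = p i := by omega
        have k2 : p (i + 1) + (p i - 1) = s := by omega
        rw [k1, k2]
      rw [g1]
      refine fs_congr D fun j hj _ => ?_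
      change u (j + (p i - 1)) = c (i + 1) j
      rw [hu2 _ (by omega)]
      congr 1
      omega
    have f4 := s5 D hD i (by omega) (by omega) 1 (p i) le_rfl (by omega) le_rfl
    have f5 := s5 D hD (i + 1) (by omega) (by omega) 1 (p (i + 1)) le_rfl (by omega) le_rfl
    have f6 := tt_left hP hS (by omega : 3 ≤ i) (by omega) ha' hD
    have hb'' : (p (i + 1 + 1) = 1 ∧ b = i + 1 + 2) ∨ (p (i + 1 + 1) ≠ 1 ∧ b = i + 1 + 1) := hb'
    have f7 := tt_right hP hS (by omega : 1 ≤ i + 1) (by omega) hb'' hD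
    have hus : u s = c (i + 1) (p (i + 1)) := by
      rw [hu2 s (by omega)]
      congr 1
      omega
    have hA : T.Adj (z i) (c i (p i)) := hS.adj i (p i) (by omega) (by omega) (by omega) le_rfl
    have hB : T.Adj (z (i + 1)) (c i (p i)) :=
      (hS.cy i (p i) (by omega) (by omega) (by omega) le_rfl).2 rfl
    have f8 := tt_tri hD hzz hA.symm hB.symm
    have f9 : fs D z a b = fs D z a i + (D (z i) (z (i + 1)) + fs D z (i + 1) b) := by
      rw [fs_split D z (by omega : a ≤ i) (by omega : i ≤ b),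
        fs_split D z (by omega : i ≤ i + 1) (by omega : i + 1 ≤ b), fs_one]
    rw [f9, f1, f2, f3, f4, f5, hus, hu1 1 (by omega), ← f6, ← f7, ← f8, ← hlk,
      hD.1 (z i) (c i (p i)), hD.1 (z (i + 1)) (c i (p i))]
    ring
  have hnew : ∀ j, 1 ≤ j → j ≤ s → (∃ k ≤ L, u j = z k) ∨
      ∃ k, 3 ≤ k ∧ k + 3 ≤ L ∧ T.Adj (z k) (u j) := by
    intro j hj hjs
    right
    rcases le_total j (p i) with hjp | hjp
    · rw [hu1 j hjp]
      exact ⟨i, by omega, by omega, hS.adj i j (by omega) (by omega) hj hjp⟩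
    · rw [hu2 j hjp]
      exact ⟨i + 1, by omega, by omega, hS.adj (i + 1) _ (by omega) (by omega) (by omega)
        (by omega)⟩
  have key := h1 F T L z u a b s hP.toIP (by omega) (by omega) (by omega) hinj hadj hleft hright
    hsum hnew
  have e : (s : ℤ) + 1 - ((b : ℤ) - a) = (p i : ℤ) + p (i + 1) - 3 -
      (if p (i - 1) = 1 then 1 else 0) - (if p (i + 2) = 1 then 1 else 0) := by
    have hs' : (s : ℤ) + 1 = (p i : ℤ) + p (i + 1) := by exact_mod_cast hs
    rcases ha' with ⟨h3, h4⟩ | ⟨h3, h4⟩ <;> rcases hb' with ⟨h5, h6⟩ | ⟨h5, h6⟩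
    · rw [if_pos h3, if_pos h5]
      omega
    · rw [if_pos h3, if_neg h5]
      omega
    · rw [if_neg h3, if_pos h5]
      omega
    · rw [if_neg h3, if_neg h5]
      omega
  rw [← e]
  exact key

end Pool.Agent.H17.OLP
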